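import Mathlib
import Pool.Agent.MP_f8cd8e_pr.Main

/-! The random spanning tree in random environment on the complete graph has an intermediate
diameter exponent at inverse temperature `n ^ (63 / 50)`. -/

open scoped Classical
open Finset MeasureTheory Filter

namespace Pool.Agent.Results.MP_f8cd8e_pr.Intermediate

/-- Gibbs weight of a subgraph `T` of the complete graph on `V` in the environment `ω`. -/
noncomputable def weight {V : Type} [Fintype V] (β : ℝ)
    (ω : (⊤ : SimpleGraph V).edgeSet → ℝ) (T : SimpleGraph V) : ℝ :=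
  ∏ e : (⊤ : SimpleGraph V).edgeSet with e.1 ∈ T.edgeSet, Real.exp (-β * ω e)

/-- Quenched probability that the random spanning tree lies in `A`. -/
noncomputable def quenched {V : Type} [Fintype V] (β : ℝ)
    (ω : (⊤ : SimpleGraph V).edgeSet → ℝ) (A : Set (SimpleGraph V)) : ℝ :=
  (∑ T : SimpleGraph V with T.IsTree ∧ T ∈ A, weight β ω T) /
    ∑ T : SimpleGraph V with T.IsTree, weight β ω T

/-- Averaged probability: the environment is i.i.d. uniform on `[0, 1]`. -/
noncomputable def averaged {V : Type} [Fintype V] (β : ℝ) (A : Set (SimpleGraph V)) : ℝ :=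
  ∫ ω, quenched β ω A ∂(Measure.pi fun _ : (⊤ : SimpleGraph V).edgeSet =>
    volume.restrict (Set.Icc (0 : ℝ) 1))

open Pool.Agent.MP_f8cd8e_pr

lemma weight_eq {V : Type} [Fintype V] (β : ℝ) (ω : Sym2 V → ℝ) (T : SimpleGraph V) :
    weight β (fun e => ω e.1) T = tw (fun e => Real.exp (-β * ω e)) T := by
  unfold weight tw
  refine prod_bij (fun e _ => e.1) ?_ ?_ ?_ ?_
  · intro e he; simpa using (mem_filter.1 he).2
  · intro a _ b _ e; exact Subtype.ext e
  · intro e he
    have he' : e ∈ T.edgeSet := by simpa using he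
    exact ⟨⟨e, SimpleGraph.edgeSet_mono le_top he'⟩, mem_filter.2 ⟨mem_univ _, he'⟩, rfl⟩
  · intro e _; rfl

lemma quenched_eq {V : Type} [Fintype V] (β : ℝ) (ω : Sym2 V → ℝ) (A : Set (SimpleGraph V)) :
    quenched β (fun e => ω e.1) A = quench β (fun T => T ∈ A) ω := by
  have h1 : ∑ T : SimpleGraph V with T.IsTree ∧ T ∈ A, weight β (fun e => ω e.1) T =
      ∑ T ∈ trees V, tw (fun e => Real.exp (-β * ω e)) T * ind (T ∈ A) := by
    rw [trees, sum_filter, sum_filter]
    refine sum_congr rfl fun T _ => ?_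
    rw [weight_eq]
    by_cases h1 : T.IsTree <;> by_cases h2 : T ∈ A <;> simp [h1, h2, ind]
  have h2 : ∑ T : SimpleGraph V with T.IsTree, weight β (fun e => ω e.1) T =
      ZZ (fun e => Real.exp (-β * ω e)) := sum_congr rfl fun T _ => weight_eq β ω T
  rw [quenched, quench, h1, h2]

lemma averaged_eq {V : Type} [Fintype V] (β : ℝ) (A : Set (SimpleGraph V)) :
    averaged β A = ∫ ω, quench β (fun T => T ∈ A) ω ∂(law (Sym2 V)) := by
  have hm : Measurable (fun ω => quenched β ω A) := by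
    unfold quenched weight
    fun_prop
  have h1 := measurePreserving_piEquivPiSubtypeProd
    (fun _ : Sym2 V => volume.restrict (Set.Icc (0 : ℝ) 1))
    (fun e => e ∈ (⊤ : SimpleGraph V).edgeSet)
  have h2 := measurePreserving_fst.comp h1
  simp only [← quenched_eq]
  unfold averaged law
  have h3 := integral_map (μ := Measure.pi
    fun _ : Sym2 V => volume.restrict (Set.Icc (0 : ℝ) 1)) h2.measurable.aemeasurable
    hm.aestronglyMeasurable
  rw [h2.map_eq] at h3
  convert h3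
  rfl

lemma pow_le_two {x : ℝ} {t k : ℕ} (hx0 : 0 ≤ x) (hx : x ≤ t + 1) (ht : (10 : ℝ) ^ 6 ≤ t)
    (hk : k ≤ 2000) : x ^ k ≤ 2 * (t : ℝ) ^ k := by
  have h0 : (0 : ℝ) < t := lt_of_lt_of_le (by norm_num) ht
  have h1 : (1 + 1 / (t : ℝ)) ^ k ≤ 2 := by
    calc _ ≤ Real.exp (1 / t) ^ k := by gcongr; linarith [Real.add_one_le_exp (1 / (t : ℝ))]
      _ = Real.exp (k * (1 / t)) := by rw [← Real.exp_nat_mul]
      _ ≤ Real.exp (((1 : ℕ) : ℝ) / 2) := by
          rw [Real.exp_le_exp, mul_one_div, div_le_iff₀ h0]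
          have : (k : ℝ) ≤ 2000 := by exact_mod_cast hk
          push_cast; linarith
      _ ≤ 2 := (two_pow_ge 1).trans (by norm_num)
  calc x ^ k ≤ ((1 + 1 / (t : ℝ)) * t) ^ k := by
        gcongr; rw [add_mul, one_mul, one_div_mul_cancel h0.ne']; exact hx
    _ ≤ _ := by rw [mul_pow]; gcongr

theorem result : Tendsto (fun n : ℕ => averaged ((n : ℝ) ^ (63 / 50 : ℝ))
    {T : SimpleGraph (Fin n) |
      (n : ℝ) ^ (17 / 50 : ℝ) ≤ T.diam ∧ (T.diam : ℝ) ≤ (n : ℝ) ^ (49 / 100 : ℝ)})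
    atTop (nhds 1) := by
  set τ : ℕ → ℕ := fun n => ⌊(n : ℝ) ^ (1 / 2000 : ℝ)⌋₊ with hτ
  have hτ1 : Tendsto (fun n => (τ n : ℝ)) atTop atTop :=
    tendsto_natCast_atTop_atTop.comp (tendsto_nat_floor_atTop.comp
      ((tendsto_rpow_atTop (by norm_num)).comp tendsto_natCast_atTop_atTop))
  have hE : ∀ᶠ T : ℝ in atTop, T ^ 20000 ≤ Real.exp (T / 100) := by
    have := (isLittleO_pow_exp_pos_mul_atTop 20000 (b := 1 / 100) (by norm_num)).eventuallyLE
    filter_upwards [this] with T hT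
    rw [Real.norm_of_nonneg (Real.exp_pos _).le, one_div_mul_eq_div] at hT
    exact (le_abs_self _).trans hT
  have hlim : Tendsto (fun n => 1 - 164 / (τ n : ℝ)) atTop (nhds 1) := by
    simpa using (hτ1.const_div_atTop 164).const_sub 1
  refine tendsto_of_tendsto_of_tendsto_of_le_of_le' hlim tendsto_const_nhds ?_ ?_
  · filter_upwards [hτ1.eventually hE, hτ1.eventually_ge_atTop (10 ^ 6), eventually_gt_atTop 0]
      with n h1 h2 hn
    have hn0 : (0 : ℝ) < n := by exact_mod_cast hn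
    set x := (n : ℝ) ^ (1 / 2000 : ℝ) with hx
    have hx0 : 0 ≤ x := by positivity
    have hxp : ∀ k : ℕ, x ^ k = (n : ℝ) ^ ((k : ℝ) / 2000) := fun k => by
      rw [hx, ← Real.rpow_natCast, ← Real.rpow_mul hn0.le]; congr 1; ring
    have a1 : (τ n : ℝ) ≤ x := Nat.floor_le hx0
    have a2 : x ≤ τ n + 1 := (Nat.lt_floor_add_one x).le
    have a3 : ∀ k : ℕ, (τ n : ℝ) ^ k ≤ x ^ k := fun k => pow_le_pow_left₀ (Nat.cast_nonneg _) a1 k
    have e1 : x ^ 2000 = n := by rw [hxp]; norm_num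
    have e2 : (n : ℝ) ^ (63 / 50 : ℝ) = n * x ^ 520 := by
      rw [hxp, ← Real.rpow_one_add' hn0.le (by norm_num)]; norm_num
    have e3 : (n : ℝ) ^ (17 / 50 : ℝ) = x ^ 680 := by rw [hxp]; norm_num
    have e4 : (n : ℝ) ^ (49 / 100 : ℝ) = x ^ 980 := by rw [hxp]; norm_num
    have hP : Par (Fintype.card (Fin n)) (τ n) := by
      rw [Fintype.card_fin]
      exact ⟨h2, (a3 2000).trans e1.le, e1.ge.trans (pow_le_two hx0 a2 h2 le_rfl), h1⟩
    rw [averaged_eq]
    refine averaged_bound hP ?_ ?_ _ ?_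
    · rw [Fintype.card_fin, e2]; exact mul_le_mul_of_nonneg_left (a3 520) hn0.le
    · rw [Fintype.card_fin, e2]
      nlinarith [mul_le_mul_of_nonneg_left (pow_le_two hx0 a2 h2 (show 520 ≤ 2000 by norm_num))
        hn0.le]
    · rintro T ⟨b1, b2⟩
      have b1' : (2 : ℝ) * (τ n : ℝ) ^ 680 ≤ T.diam := by exact_mod_cast b1.le
      have b2' : (T.diam : ℝ) ≤ (τ n : ℝ) ^ 980 := by exact_mod_cast b2
      exact ⟨e3 ▸ (pow_le_two hx0 a2 h2 (by norm_num)).trans b1', e4 ▸ b2'.trans (a3 980)⟩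
  · refine Eventually.of_forall fun n => ?_
    simp only [averaged_eq]
    calc _ ≤ ∫ _, (1 : ℝ) ∂(law (Sym2 (Fin n))) :=
          integral_mono_of_nonneg (Eventually.of_forall fun ω => quench_nonneg _ _ ω)
            (integrable_const 1) (Eventually.of_forall fun ω => quench_le_one _ _ ω)
      _ = 1 := by simp

end Pool.Agent.Results.MP_f8cd8e_pr.Intermediate
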